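import Pool.Agent.Helper94.PP.GoalsA1
import Pool.Agent.Helper58.RSP.EUL

/-!
# Project PP: packet A1_PRI
-/

set_option autoImplicit false

namespace Pool.Agent.Helper61.PP

open NumberField Module IsDedekindDomain
open Pool.Agent.Helper38.RSP (Lc)
open Pool.Agent.Helper51.PP (RC)
open Pool.Agent.Helper94.PP

theorem rc_top {F : Type} [Field F] [NumberField F] {𝔪 : Ideal (𝓞 F)} {χ : Ideal (𝓞 F) → ℂ} (h : RC 𝔪 χ) :
    χ ⊤ = 1 := by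
  have h1 : ‖χ ⊤‖ = 1 := h.cop ⊤ top_ne_bot (top_sup_eq 𝔪)
  have h2 : χ ⊤ ≠ 0 := fun h0 => by rw [h0, norm_zero] at h1; exact zero_ne_one h1
  have h3 : χ ⊤ = χ ⊤ * χ ⊤ := by
    have h4 := h.mul ⊤ ⊤
    rwa [Ideal.top_mul] at h4
  exact (mul_eq_left₀ h2).1 h3.symm

theorem rc_norm_le {F : Type} [Field F] [NumberField F] {𝔪 : Ideal (𝓞 F)} {χ : Ideal (𝓞 F) → ℂ} (h : RC 𝔪 χ)
    (I : Ideal (𝓞 F)) : ‖χ I‖ ≤ 1 := by
  by_cases h0 : I = ⊥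
  · rw [h0, h.zero, norm_zero]
    exact zero_le_one
  · by_cases h1 : I ⊔ 𝔪 = ⊤
    · exact (h.cop I h0 h1).le
    · rw [h.ncop I h0 h1, norm_zero]
      exact zero_le_one

theorem goalPRI (h1 : A1_LOG) : A1_PRI := by
  intro F _ _ _
  obtain ⟨C₁, hC₁, hL⟩ := h1 F
  obtain ⟨C₂, hE⟩ := Pool.Agent.Helper58.RSP.sp_eul F
  refine ⟨Real.log C₁ + C₂, fun 𝔪 χ hRC hN s hs1 hs2 => ?_⟩
  obtain ⟨hne, habs⟩ := hE χ (rc_top hRC) hRC.mul (rc_norm_le hRC) s hs1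
  have h2 := hL 𝔪 χ hRC hN s hs1 hs2
  have hN1 : (1 : ℝ) ≤ Ideal.absNorm 𝔪 := by
    have : Ideal.absNorm 𝔪 ≠ 0 := fun h0 => hRC.ne (Ideal.absNorm_eq_zero_iff.1 h0)
    exact_mod_cast Nat.one_le_iff_ne_zero.2 this
  have hlog : 0 ≤ Real.log (Ideal.absNorm 𝔪) := Real.log_nonneg hN1
  have h3 : Real.log ‖Lc χ s‖ ≤ Real.log C₁ + Real.log (1 + Real.log (Ideal.absNorm 𝔪)) := by
    rw [← Real.log_mul hC₁.ne' (by positivity)]
    exact Real.log_le_log (norm_pos_iff.2 hne) h2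
  have h4 := (abs_le.1 habs).1
  linarith

end Pool.Agent.Helper61.PP
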