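import Pool.Agent.Helper17.PP.GoalsC3

/-!
# Project PP: packet C_EX3
-/

set_option autoImplicit false

namespace Pool.Agent.Helper61.PP

open Finset Pool.Agent.Helper17.PP

/-- the blocks below the logarithm of `X` contain only primes of norm at most `X` -/
theorem below_sub_upto {p : ℕ} {B B₀ k U Λ C : Type} [Field k] [AddCommGroup U] [Module k U]
    [AddCommGroup Λ] [Module k Λ] [AddCommGroup C] (S : Sys p B B₀ k U Λ C) (X : ℝ) (hX : 1 ≤ X) :
    S.below (lg X) ⊆ S.upto X := by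
  classical
  intro q hq
  rw [Sys.below, mem_filter] at hq
  rw [Sys.upto, Set.Finite.mem_toFinset, Set.mem_ofPred_eq]
  have h1 : S.bl q < lg X := hq.2
  have h0 : ⌊X⌋₊ ≠ 0 := by
    have := Nat.le_floor (n := 1) (by exact_mod_cast hX : ((1 : ℕ) : ℝ) ≤ X)
    omega
  have h2 : S.N q < 2 ^ lg X := by
    have h3 : S.N q < 2 ^ (S.bl q + 1) := Nat.lt_pow_succ_log_self (by norm_num) _
    exact h3.trans_le (Nat.pow_le_pow_right (by norm_num) h1)
  have h4 : 2 ^ lg X ≤ ⌊X⌋₊ := Nat.pow_log_le_self 2 h0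
  omega

theorem c_ex3 : C_EX3 := by
  classical
  intro p _ B B₀ k U Λ C _ _ _ _ _ _ _ _ _ _ _ S ψ ψ₁ g K hyp ε hε
  have hK1 : (1 : ℝ) ≤ K := by exact_mod_cast hyp.one_le
  have hK0 : (0 : ℝ) < K := by linarith
  -- choice of `s₀`
  obtain ⟨s₀, hs₀⟩ : ∃ s₀ : ℕ, 1 ≤ s₀ ∧ K * (K + Real.log (K / ε)) ≤ Real.log s₀ := by
    obtain ⟨n, hn⟩ := exists_nat_ge (Real.exp (K * (K + Real.log (K / ε))))
    have hn0 : (0 : ℝ) < n := (Real.exp_pos _).trans_le hn
    refine ⟨n, by exact_mod_cast hn0, ?_⟩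
    rw [Real.le_log_iff_exp_le hn0]
    exact hn
  refine ⟨2 ^ (s₀ * s₀), fun X hX P => ?_⟩
  have hX1 : (1 : ℝ) ≤ X := le_trans (one_le_pow₀ (by norm_num)) hX
  have hX0 : (0 : ℝ) < X := by linarith
  have hfl : 2 ^ (s₀ * s₀) ≤ ⌊X⌋₊ := Nat.le_floor (by exact_mod_cast hX)
  have hlg : s₀ * s₀ ≤ lg X := by
    unfold lg
    exact Nat.le_log_of_pow_le (by norm_num) hfl
  set L := lg X with hL
  set s := Nat.sqrt L with hs
  have hss : s₀ ≤ s := Nat.le_sqrt.2 hlg
  have hs1 : 1 ≤ s := hs₀.1.trans hss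
  have hsL : s * s ≤ L := Nat.sqrt_le L
  have hsL' : s ≤ L := Nat.sqrt_le_self L
  have hg : 1 ≤ g X := hyp.g_one X
  set f : B → ℝ := fun q => if (¬ S.spl q ∧ s ≤ S.bl q) then 0 else 1 with hf
  have hf0 : ∀ q, 0 ≤ f q := by
    intro q
    simp only [hf]
    split_ifs <;> norm_num
  have hf1 : ∀ q, f q ≤ 1 := by
    intro q
    simp only [hf]
    split_ifs <;> norm_num
  have hcard : (0 : ℝ) ≤ Fintype.card k := by positivity
  have h1 := hyp.ht f (fun q => ⟨hf0 q, (hf1 q).trans (by linarith)⟩) X hX0 P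
  have h2 : ∑ b ∈ P.powerset with (∀ q ∈ b, ¬ S.spl q → S.bl q < s), Real.exp (-(S.nm b / X)) ≤
      ∑ b ∈ P.powerset, (∏ q ∈ b, f q) * Real.exp (-(S.nm b / X)) := by
    rw [Finset.sum_filter]
    apply Finset.sum_le_sum
    intro b _
    split_ifs with hb
    · have : ∏ q ∈ b, f q = 1 := by
        apply Finset.prod_eq_one
        intro q hq
        simp only [hf]
        rw [if_neg]
        rintro ⟨h3, h4⟩
        have := hb q hq h3
        omega
      rw [this, one_mul]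
    · exact mul_nonneg (Finset.prod_nonneg fun q _ => hf0 q) (Real.exp_pos _).le
  have h3 : ∑ q ∈ S.upto X, (f q - 1) / S.N q ≤ -((1 / K : ℝ) * Real.log s - K) := by
    have e1 : ∑ q ∈ S.upto X, (f q - 1) / S.N q =
        -∑ q ∈ S.upto X with (¬ S.spl q ∧ s ≤ S.bl q), (1 : ℝ) / S.N q := by
      rw [Finset.sum_filter, ← Finset.sum_neg_distrib]
      apply Finset.sum_congr rfl
      intro q _
      simp only [hf]
      split_ifs <;> ring
    rw [e1, neg_le_neg_iff]
    have e2 := hyp.mern s L hs1 hsL'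
    have e3 : ∑ q ∈ S.below L with ¬ S.spl q ∧ s ≤ S.bl q, (1 : ℝ) / S.N q ≤
        ∑ q ∈ S.upto X with (¬ S.spl q ∧ s ≤ S.bl q), (1 : ℝ) / S.N q := by
      apply Finset.sum_le_sum_of_subset_of_nonneg
      · exact Finset.filter_subset_filter _ (below_sub_upto S X hX1)
      · intro q _ _
        positivity
    have hs0 : (0 : ℝ) < s := by exact_mod_cast hs1
    have e4 : Real.log s ≤ Real.log (L / s) := by
      apply Real.log_le_log hs0
      rw [le_div_iff₀ hs0]
      exact_mod_cast hsL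
    have e5 : (1 / K : ℝ) * Real.log s ≤ (1 / K : ℝ) * Real.log (L / s) :=
      mul_le_mul_of_nonneg_left e4 (by positivity)
    linarith
  have h4 : Real.log s₀ ≤ Real.log s :=
    Real.log_le_log (by exact_mod_cast hs₀.1) (by exact_mod_cast hss)
  have h5 : -((1 / K : ℝ) * Real.log s - K) ≤ -Real.log (K / ε) := by
    have e1 : K * (K + Real.log (K / ε)) ≤ Real.log s := hs₀.2.trans h4
    have e2 : (K : ℝ) + Real.log (K / ε) ≤ (1 / K : ℝ) * Real.log s := by
      rw [one_div, ← div_eq_inv_mul, le_div_iff₀ hK0]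
      linarith
    linarith
  have h6 : Real.exp (∑ q ∈ S.upto X, (f q - 1) / S.N q) ≤ ε / K := by
    refine (Real.exp_le_exp.2 (h3.trans h5)).trans ?_
    rw [Real.exp_neg, Real.exp_log (by positivity), inv_div]
  have h7 : (K : ℝ) * (X * min 1 X * g X) ≤ K * (X * g X) := by
    apply mul_le_mul_of_nonneg_left _ hK0.le
    rw [min_eq_left hX1, mul_one]
  calc ∑ b ∈ P.powerset with (∀ q ∈ b, ¬ S.spl q → S.bl q < s), Real.exp (-(S.nm b / X))
      ≤ _ := h2
    _ ≤ _ := h1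
    _ ≤ K * (X * g X) * (ε / K) := by
        apply mul_le_mul h7 h6 (Real.exp_pos _).le
        positivity
    _ = ε * (X * g X) := by
        field_simp

end Pool.Agent.Helper61.PP
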