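import Pool.Agent.Helper17.PP.GoalsC2

/-!
# Project PP: packet C_MNB
-/

set_option autoImplicit false

namespace Pool.Agent.Helper61.PP

open Finset Pool.Agent.Helper17.PP

theorem th_mono (E : ℕ) {s j : ℕ} (h : s ≤ j) : th E s ≤ th E j := by
  unfold th
  exact Nat.pow_le_pow_right (by norm_num) (Nat.div_le_div_right h)

/-- a geometric sum along an injective rank function -/
theorem geo_rank {B : Type} (W : Finset B) (h : B → ℕ) (hinj : Set.InjOn h (W : Set B)) (Q : ℝ) (hQ : 1 < Q) :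
    ∑ q ∈ W, (Q - 1) * (1 / Q) ^ h q ≤ Q := by
  have h0 : (0 : ℝ) < Q := by linarith
  have h1 : ∑ q ∈ W, (Q - 1) * (1 / Q) ^ h q = ∑ n ∈ W.image h, (Q - 1) * (1 / Q) ^ n := by
    rw [Finset.sum_image]
    exact hinj
  have h2 : W.image h ⊆ range ((W.image h).sup id + 1) := by
    intro n hn
    rw [mem_range]
    exact Nat.lt_succ_of_le (Finset.le_sup (f := id) hn)
  have h3 : ∀ N : ℕ, ∑ n ∈ range N, (Q - 1) * (1 / Q) ^ n = Q * (1 - (1 / Q) ^ N) := by
    intro N
    induction N with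
    | zero => simp
    | succ N ih =>
      rw [sum_range_succ, ih, pow_succ]
      field_simp
      ring
  rw [h1]
  refine (Finset.sum_le_sum_of_subset_of_nonneg h2 fun n _ _ => ?_).trans ?_
  · exact mul_nonneg (by linarith) (by positivity)
  · rw [h3]
    have : (0 : ℝ) ≤ (1 / Q) ^ ((W.image h).sup id + 1) := by positivity
    nlinarith

theorem c_mnb : C_MNB := by
  classical
  intro p B B₀ k U Λ C _ _ _ _ _ _ _ S E s b hb
  have hQ : (1 : ℝ) < Fintype.card k := by exact_mod_cast Fintype.one_lt_card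
  set W : Finset B := b.filter fun q => S.Wt E b q ∧ s ≤ S.bl q with hW
  have hWm : ∀ q, q ∈ W ↔ q ∈ b ∧ S.Wt E b q ∧ s ≤ S.bl q := fun q => by rw [hW, mem_filter]
  have hbl : ∀ q ∈ W, ∀ q' ∈ W, S.bl q = S.bl q' → q = q' := by
    intro q hq q' hq' h
    by_contra hne
    exact ((hWm q).1 hq).2.1.uniq q' ((hWm q').1 hq').1 (fun e => hne e.symm) ((hWm q').1 hq').2.1.spl h.symm
  set h : B → ℕ := fun q => (W.filter fun q' => S.bl q < S.bl q').card with hh
  have hlt : ∀ q ∈ W, ∀ q' ∈ W, S.bl q < S.bl q' → h q' < h q := by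
    intro q _ q' hq' hqq
    apply Finset.card_lt_card
    refine ⟨fun x hx => ?_, fun hsub => ?_⟩
    · rw [mem_filter] at hx ⊢
      exact ⟨hx.1, hqq.trans hx.2⟩
    · have := hsub (mem_filter.2 ⟨hq', hqq⟩)
      exact lt_irrefl _ (mem_filter.1 this).2
  have hinj : Set.InjOn h (W : Set B) := by
    intro q hq q' hq' he
    apply hbl q hq q' hq'
    rcases lt_trichotomy (S.bl q) (S.bl q') with h1 | h1 | h1
    · have := hlt q hq q' hq' h1
      omega
    · exact h1
    · have := hlt q' hq' q hq h1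
      omega
  have hle : ∀ q ∈ W, h q ≤ (S.rt E b q).card := by
    intro q hq
    apply Finset.card_le_card
    intro q' hq'
    rw [mem_filter] at hq'
    obtain ⟨h1, h2⟩ := hq'
    rw [Sys.rt, mem_filter, mem_erase]
    refine ⟨⟨?_, ((hWm q').1 h1).1⟩, ((hWm q').1 h1).2.1.spl, h2, ?_⟩
    · rintro rfl
      exact lt_irrefl _ h2
    · exact (hb q' ((hWm q').1 h1).1).trans (th_mono E ((hWm q).1 hq).2.2)
  refine le_trans (Finset.sum_le_sum fun q hq => ?_) (geo_rank W h hinj _ hQ)
  apply mul_le_mul_of_nonneg_left _ (by linarith)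
  apply pow_le_pow_of_le_one (by positivity) _ (hle q hq)
  rw [div_le_one (by linarith)]
  exact hQ.le

end Pool.Agent.Helper61.PP
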