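import Pool.Agent.Helper88.PP.Goals

/-!
# MP_69be96_nt, packet S1: the mean square of the weight
-/

set_option autoImplicit false

open Finset Filter Topology

open scoped Classical

namespace Pool.Agent.Helper61.PP

open Pool.Agent.Helper88.PP

theorem om_nonneg (y z : ℕ) : 0 ≤ om y z := by
  unfold om
  refine Finset.prod_nonneg fun p hp => ?_
  have hp1 : 1 ≤ p := (Finset.mem_filter.1 hp).2.one_lt.le
  have : 1 / (p : ℝ) ≤ 1 := by
    rw [div_le_one (by exact_mod_cast hp1)]
    exact_mod_cast hp1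
  linarith

theorem VV_nonneg (z m m' : ℕ) : 0 ≤ VV z m m' := by
  unfold VV
  exact Finset.sum_nonneg fun r _ => by positivity

theorem aa_nonneg (q E z r : ℕ) : 0 ≤ aa q E z r := by
  unfold aa
  have := VV_nonneg z (m1 q E) (m2 q E)
  positivity

theorem ww_nonneg {o : ℝ} (ho : 0 ≤ o) (r : ℕ) : 0 ≤ ww o r := by
  unfold ww
  split_ifs
  · exact zero_le_one
  · positivity

theorem XX_nonneg (x : ℕ) : 0 ≤ XX x := by
  unfold XX
  positivity

theorem mem_TT {q E z : ℕ} {P : Finset ℕ} {r : P → ℕ} (hr : r ∈ TT q E z P) :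
    (∀ i, r i = 0 ∨ r i ∈ LA z (m1 q E) (m2 q E)) ∧
      ∑ i, (if r i = 0 then 0 else ee z (r i)) ≤ MM E := by
  unfold TT at hr
  rw [Finset.mem_filter, Fintype.mem_piFinset] at hr
  exact ⟨fun i => by simpa [Finset.mem_insert] using hr.1 i, hr.2⟩

theorem ee_LA {z m m' r : ℕ} (hz : 2 ≤ z) (hr : r ∈ LA z m m') : m + 1 ≤ ee z r := by
  unfold LA at hr
  rw [Finset.mem_filter] at hr
  unfold ee
  have h1 : r ≠ 0 := by
    have := pow_pos (by omega : 0 < z) m
    omega
  have h2 : m ≤ Nat.log z r := Nat.le_log_of_pow_le (by omega) hr.2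
  omega

theorem card_TT {q E z : ℕ} {P : Finset ℕ} (hq : 1 ≤ q) (hz : 2 ≤ z) {r : P → ℕ}
    (hr : r ∈ TT q E z P) : (univ.filter (fun i => r i ≠ 0)).card ≤ 2 * q := by
  obtain ⟨h1, h2⟩ := mem_TT hr
  have h3 : (univ.filter (fun i => r i ≠ 0)).card * (m1 q E + 1) ≤ MM E := by
    refine le_trans ?_ h2
    rw [← smul_eq_mul, ← Finset.sum_const]
    have h4 : ∑ i ∈ univ.filter (fun i => r i ≠ 0), (m1 q E + 1) ≤
        ∑ i ∈ univ.filter (fun i => r i ≠ 0), (if r i = 0 then 0 else ee z (r i)) := by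
      refine Finset.sum_le_sum fun i hi => ?_
      have hi' := (Finset.mem_filter.1 hi).2
      rw [if_neg hi']
      exact ee_LA hz ((h1 i).resolve_left hi')
    refine h4.trans ?_
    exact Finset.sum_le_sum_of_subset (Finset.filter_subset _ _)
  have h5 : MM E < (m1 q E + 1) * (2 * q) := by
    unfold MM m1
    have := Nat.lt_div_mul_add (a := E / 16) (b := 2 * q) (by omega)
    calc E / 16 < E / 16 / (2 * q) * (2 * q) + 2 * q := this
      _ = _ := by ring
  by_contra hcon
  have h6 : 2 * q ≤ (univ.filter (fun i => r i ≠ 0)).card := by omega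
  have h7 : (m1 q E + 1) * (2 * q) ≤ (m1 q E + 1) * (univ.filter (fun i => r i ≠ 0)).card :=
    Nat.mul_le_mul_left _ h6
  have h8 : (m1 q E + 1) * (univ.filter (fun i => r i ≠ 0)).card =
    (univ.filter (fun i => r i ≠ 0)).card * (m1 q E + 1) := mul_comm _ _
  omega

theorem prod_TT {q E z : ℕ} {P : Finset ℕ} (hz : 2 ≤ z) {r : P → ℕ}
    (hr : r ∈ TT q E z P) : ∏ i, max 1 (r i) ≤ z ^ MM E := by
  obtain ⟨h1, h2⟩ := mem_TT hr
  calc ∏ i, max 1 (r i) ≤ ∏ i, z ^ (if r i = 0 then 0 else ee z (r i)) := by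
        refine Finset.prod_le_prod' fun i _ => ?_
        split_ifs with h
        · rw [h]; simp
        · refine max_le (Nat.one_le_pow _ _ (by omega)) ?_
          unfold ee
          exact (Nat.lt_pow_succ_log_self (by omega) _).le
    _ = z ^ ∑ i, (if r i = 0 then 0 else ee z (r i)) := Finset.prod_pow_eq_pow_sum _ _ _
    _ ≤ z ^ MM E := Nat.pow_le_pow_right (by omega) h2

theorem WW_eq (q E z y : ℕ) (P : Finset ℕ) (n : ℕ) : WW q E z y P n =
    ∑ r ∈ TT q E z P, (∏ i : P, (if r i = 0 then 1 else - aa q E z (r i))) *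
      ∏ i : P, vv y z (r i) (n + (i : ℕ)) := by
  unfold WW
  refine Finset.sum_congr rfl fun r _ => ?_
  rw [Finset.prod_mul_distrib]

theorem DD_eq (q E z y : ℕ) (P : Finset ℕ) : DD q E z y P =
    ∑ r ∈ TT q E z P, (∏ i : P, (if r i = 0 then 1 else - aa q E z (r i))) ^ 2 *
      ∏ i : P, ww (om y z) (r i) := by
  unfold DD
  refine Finset.sum_congr rfl fun r _ => ?_
  rw [Finset.prod_mul_distrib, ← Finset.prod_pow]
  congr 1
  refine Finset.prod_congr rfl fun i _ => ?_
  split_ifs <;> ring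

theorem one_le_DD (q E z y : ℕ) (P : Finset ℕ) : 1 ≤ DD q E z y P := by
  unfold DD
  have h0 : (fun _ : P => 0) ∈ TT q E z P := by
    unfold TT
    rw [Finset.mem_filter, Fintype.mem_piFinset]
    exact ⟨fun i => Finset.mem_insert_self _ _, by simp⟩
  have h2 : ∏ i : P, ((if (fun _ : P => 0) i = 0 then (1 : ℝ) else
      (aa q E z ((fun _ : P => 0) i)) ^ 2) * ww (om y z) ((fun _ : P => 0) i)) = 1 := by
    simp [ww]
  have h3 := Finset.single_le_sum (f := fun r : P → ℕ => ∏ i : P,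
    ((if r i = 0 then 1 else (aa q E z (r i)) ^ 2) * ww (om y z) (r i))) (s := TT q E z P)
    (fun r _ => by
      refine Finset.prod_nonneg fun i _ => mul_nonneg ?_ (ww_nonneg (om_nonneg y z) _)
      split_ifs
      · exact zero_le_one
      · positivity) h0
  refine le_trans ?_ h3
  exact h2.ge

/-- Packet `S1`. -/
theorem s1 (h : StmtTS) : StmtS1 := by
  intro q hq A ε hA hε
  obtain ⟨E0, hE0⟩ := h q hq A ε (2 * q) hA hε
  refine ⟨max E0 1, fun E hE => ?_⟩
  obtain ⟨z0, hz0⟩ := hE0 E (le_of_max_le_left hE)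
  refine ⟨max z0 2, fun z hz x y hsc b hb P hP hPA => ⟨one_le_DD q E z y P, ?_⟩⟩
  have hz2 : 2 ≤ z := le_of_max_le_right hz
  have hE1 : 1 ≤ E := le_of_max_le_right hE
  have key := hz0 z (le_of_max_le_left hz) x y hsc b hb P hP hPA (TT q E z P)
    (fun r => ∏ i : P, (if r i = 0 then 1 else - aa q E z (r i))) ∅ (by simp)
    (fun r hr i _ => (mem_TT hr).1 i) (fun r hr i hi => absurd hi (Finset.notMem_empty i))
    (fun r hr => card_TT hq.1 hz2 hr)
    (fun r hr => (prod_TT hz2 hr).trans (Nat.pow_le_pow_right (by omega) (by omega)))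
    (fun r hr => by
      rw [Finset.abs_prod]
      refine Finset.prod_le_prod (fun i _ => abs_nonneg _) fun i _ => ?_
      rw [if_neg (Finset.notMem_empty i)]
      split_ifs
      · rw [abs_one]
      · rw [abs_neg, abs_of_nonneg (aa_nonneg _ _ _ _)])
  rw [DD_eq]
  simp only [WW_eq]
  refine key.trans ?_
  rw [Finset.card_empty, pow_zero, mul_one]
  have h1 : ε / E ≤ ε := div_le_self hε.le (by exact_mod_cast hE1)
  exact mul_le_mul_of_nonneg_right h1 (XX_nonneg x)

end Pool.Agent.Helper61.PP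

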