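import Pool.Agent.Helper94.PP.GoalsA1

/-!
# Project PP: packet A1_RPS
-/

set_option autoImplicit false

namespace Pool.Agent.Helper61.PP

open NumberField Module IsDedekindDomain
open Pool.Agent.Helper94.PP

theorem goalRPS : A1_RPS := by
  intro F _ _
  set b := RingOfIntegers.basis F with hb
  refine ⟨∑ i, house ((b i : 𝓞 F) : F), Finset.sum_nonneg fun i _ => house_nonneg _, fun Λ hΛ β => ?_⟩
  set N : ℕ := Ideal.absNorm Λ with hN
  have hN0 : N ≠ 0 := fun h0 => hΛ (Ideal.absNorm_eq_zero_iff.1 h0)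
  have hNZ : (0 : ℤ) < N := by exact_mod_cast Nat.pos_of_ne_zero hN0
  refine ⟨∑ i, (b.repr β i % (N : ℤ)) • b i, ?_, ?_⟩
  · have h1 : ∑ i, (b.repr β i % (N : ℤ)) • b i - β = -((N : 𝓞 F) * ∑ i, (b.repr β i / (N : ℤ)) • b i) := by
      have h2 : ∑ i, b.repr β i • b i = β := b.sum_repr β
      calc ∑ i, (b.repr β i % (N : ℤ)) • b i - β
          = ∑ i, (b.repr β i % (N : ℤ)) • b i - ∑ i, b.repr β i • b i := by rw [h2]
        _ = _ := by
          rw [← Finset.sum_sub_distrib, Finset.mul_sum, ← Finset.sum_neg_distrib]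
          apply Finset.sum_congr rfl
          intro i _
          have h3 : b.repr β i % (N : ℤ) = b.repr β i - N * (b.repr β i / N) := Int.emod_def _ _
          rw [h3]
          simp only [zsmul_eq_mul, Int.cast_sub, Int.cast_mul, Int.cast_natCast]
          ring
    rw [h1]
    exact Λ.neg_mem (Λ.mul_mem_right _ (Ideal.absNorm_mem Λ))
  · have h1 : ((∑ i, (b.repr β i % (N : ℤ)) • b i : 𝓞 F) : F) =
        ∑ i, ((b.repr β i % (N : ℤ) : ℤ) : F) * ((b i : 𝓞 F) : F) := by
      show algebraMap (𝓞 F) F (∑ i, (b.repr β i % (N : ℤ)) • b i) =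
        ∑ i, ((b.repr β i % (N : ℤ) : ℤ) : F) * algebraMap (𝓞 F) F (b i)
      rw [map_sum]
      apply Finset.sum_congr rfl
      intro i _
      rw [zsmul_eq_mul, map_mul, map_intCast]
    rw [h1, Finset.sum_mul]
    refine (house_sum_le_sum_house _ _).trans (Finset.sum_le_sum fun i _ => ?_)
    refine (house_mul_le _ _).trans ?_
    rw [mul_comm, house_intCast]
    apply mul_le_mul_of_nonneg_left _ (house_nonneg _)
    have h2 : 0 ≤ b.repr β i % (N : ℤ) := Int.emod_nonneg _ hNZ.ne'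
    have h3 : b.repr β i % (N : ℤ) < N := Int.emod_lt_of_pos _ hNZ
    rw [abs_of_nonneg h2]
    exact_mod_cast h3.le

end Pool.Agent.Helper61.PP
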